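import Pool.Agent.Helper28.Few.Final

open Pool.Agent.Helper65.LinSpace Pool.Agent.Helper28.Ram

namespace Pool.Agent.Results.MP_c578c8_lc.RandomAccess

/-- **Random access machines with few changes of registers are in linear space, but do not even
compute all of linear space on average.** Let `c` be a number. Consider random access machines which
read an input word of length `n`, an advice word, and a word of length `c n` whose letters are
chosen in turn by two players. States and addresses have at most `s` bits, registers may be much
longer (`a` bits), and only the `x` steps which change the content of a register are counted: the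
running time may be `2 ^ h x` (so all polynomial running times are allowed), and it is unlimited if
`s < h`. The bounds (`RAM.Within`) are `x s l^2 ≤ C (n + 1)^(3/2)`, `s (h + 1) l ≤ C (n + 1)^(1/2)`
and `a l^2 ≤ C (n + 1)` for `l = h + ⌊log₂ n⌋ + 1`. Every language which is accepted by such a
machine is in `DSPACE(n)`. On the other hand there are a language `L` in `DSPACE(n)` and masks `s n`
of length `n` such that `L` consists of the words `w` whose inner product with `s |w|` is odd, and
for every machine and every `C` there is a `c'` such that for `M = L` and for `M` the complement of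
`L`, for all `n` and all advice words `α`, the machine is correct within these bounds on at most
`2^n / 2 + c' (min (|α|, n - |α|) + 1) 2^((n + |α|) / 2)` words of length `n`. -/
theorem result (c : ℕ) :
    (∀ (A : RAM) (L : Set (List Bool)) (C : ℝ),
      (∀ w, Alt true (c * w.length) (fun v => ∃ r, A.AcceptsAt w v r) → w ∈ L) →
      (∀ w ∈ L, Alt true (c * w.length) (A.Within C w)) → DLINSPACE L) ∧
    ∃ (L : Set (List Bool)) (s : ℕ → List Bool), DLINSPACE L ∧
      (∀ n, (s n).length = n) ∧
      (∀ w, w ∈ L ↔ Odd ((List.zipWith and (s w.length) w).count true)) ∧
      ∀ (A : RAM) (C : ℝ), ∃ c' : ℝ, ∀ (n : ℕ) (α : List Bool),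
        ∀ M, M = L ∨ M = Lᶜ →
          ({w : List Bool | w.length = n ∧
            (Alt true (c * n) (fun v => ∃ r, A.AcceptsAt w (α ++ v) r) → w ∈ M) ∧
            (w ∈ M → Alt true (c * n) fun v => A.Within C w (α ++ v))}.ncard : ℝ) ≤
          2 ^ n / 2 +
            c' * ((min α.length (n - α.length) : ℕ) + 1) * 2 ^ (((n : ℝ) + α.length) / 2) :=
  ⟨Pool.Agent.Helper28.Few.few_lin Pool.Agent.Helper28.Few.sim c,
    Pool.Agent.Helper28.Few.few_main Pool.Agent.Helper28.Few.sim c⟩

end Pool.Agent.Results.MP_c578c8_lc.RandomAccess
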