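import Pool.Agent.Helper28.Sus.Final

open Pool.Agent.Helper65.LinSpace Pool.Agent.Helper28.Ram Pool.Agent.Helper28.Sus

namespace Pool.Agent.Results.MP_c578c8_lc.SustainedSpace

/-- **Sustained space.** Let `c` be a number. Consider nondeterministic machines which read an input
word of length `n`, an advice word and a word of length `c n` whose letters are chosen in turn by two
players. States and names of registers are words of length at most `s`, registers contain words of
length at most `a`. The registers are changed by messages; a message is a state which changes all
registers at the same time. Only messages are counted, other steps are free (up to `2 ^ h` per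
message). A computation is good if it can be divided into `2 ^ k` parts (any polynomial number, for
`k = O(log n)`) such that a part has at most `x` messages and at most `c n` guessed letters, and such
that between two parts the live registers (those which are read later, before they are reset) have a
total size of at most `z`. The bounds (`NBM.Within`) are, for `l = h + ⌊log₂ n⌋ + 1`:
`x (s + l) l^2 ≤ C (n + 1)^(3/2)`, `(s + l) (h + 1) l ≤ C (n + 1)^(1/2)`, `a l^2 ≤ C (n + 1)`,
`(k + 1) (z + s + l) l ≤ C (n + 1)`; for states of `O(log n)` bits and polynomial time this means
`x = C n^(3/2) / log^3 n` and `z = C n / log^2 n`. Every language which is accepted by such machines is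
in `DSPACE(n)`. On the other hand there are a language `L` in `DSPACE(n)` and masks `s n` of length `n`
such that `L` consists of the words `w` whose inner product with `s |w|` is odd, and for every machine
and every `C` there is a `c'` such that for `M = L` and for `M` the complement of `L`, for all `n` and
all advice words `α`, the machine is correct within these bounds on at most
`2^n / 2 + c' (min (|α|, n - |α|) + 1) 2^((n + |α|) / 2)` words of length `n`. In particular, if a
machine decides `M` then on all but `c' 2^(n / 2)` of the words of length `n` in `M` every accepting
computation has a stretch with `C n^(3/2) / log^3 n` messages (or more than `c n` guessed letters) in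
which the live registers have, all the time, a size of more than `C n / log^2 n`. -/
theorem result (c : ℕ) :
    (∀ (A : NBM) (L : Set (List Bool)) (C : ℝ),
      (∀ w, Alt true (c * w.length) (fun v => ∃ g r, A.AcceptsAt w v g r) → w ∈ L) →
      (∀ w ∈ L, Alt true (c * w.length) (A.Within c C w)) → DLINSPACE L) ∧
    ∃ (L : Set (List Bool)) (s : ℕ → List Bool), DLINSPACE L ∧
      (∀ n, (s n).length = n) ∧
      (∀ w, w ∈ L ↔ Odd ((List.zipWith and (s w.length) w).count true)) ∧
      ∀ (A : NBM) (C : ℝ), ∃ c' : ℝ, ∀ (n : ℕ) (α : List Bool),
        ∀ M, M = L ∨ M = Lᶜ →
          ({w : List Bool | w.length = n ∧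
            (Alt true (c * n) (fun v => ∃ g r, A.AcceptsAt w (α ++ v) g r) → w ∈ M) ∧
            (w ∈ M → Alt true (c * n) fun v => A.Within c C w (α ++ v))}.ncard : ℝ) ≤
          2 ^ n / 2 +
            c' * ((min α.length (n - α.length) : ℕ) + 1) * 2 ^ (((n : ℝ) + α.length) / 2) :=
  ⟨sus_lin Pool.Agent.Helper81.Tok3.theSim parts c,
    sus_main Pool.Agent.Helper81.Tok3.theSim parts c⟩

end Pool.Agent.Results.MP_c578c8_lc.SustainedSpace
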